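import Mathlib

namespace Pool.Agent.H.Mim
open Finset
open Classical

noncomputable def ind (p : Prop) : ℝ := if p then 1 else 0

lemma ind_nonneg (p : Prop) : 0 ≤ ind p := by unfold ind; split_ifs <;> norm_num
lemma ind_le_one (p : Prop) : ind p ≤ 1 := by unfold ind; split_ifs <;> norm_num
lemma ind_pos {p : Prop} (h : p) : ind p = 1 := if_pos h
lemma ind_neg {p : Prop} (h : ¬ p) : ind p = 0 := if_neg h
lemma ind_congr {p q : Prop} (h : p ↔ q) : ind p = ind q := by rw [propext h]
lemma ind_and (p q : Prop) : ind (p ∧ q) = ind p * ind q := by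
  unfold ind; by_cases p <;> by_cases q <;> simp [*]
lemma ind_le {p q : Prop} (h : p → q) : ind p ≤ ind q := by
  unfold ind; by_cases p <;> by_cases q <;> simp_all
lemma ind_le2 {p q r : Prop} (h : p → q ∨ r) : ind p ≤ ind q + ind r := by
  unfold ind; by_cases p <;> by_cases q <;> by_cases r <;> simp_all
lemma ind_add_le {p q r : Prop} (h1 : p → r) (h2 : q → r) (h3 : ¬ (p ∧ q)) :
    ind p + ind q ≤ ind r := by
  unfold ind; by_cases p <;> by_cases q <;> by_cases r <;> simp_all
lemma ind_split (p q : Prop) : ind p = ind (p ∧ q) + ind (p ∧ ¬ q) := by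
  unfold ind; by_cases p <;> by_cases q <;> simp [*]
lemma sum_ind_eq {ι : Type*} [Fintype ι] (x : ι) (p : ι → Prop) :
    ∑ i, ind (x = i ∧ p i) = ind (p x) := by
  rw [Finset.sum_eq_single x]
  · simp
  · intro i _ hi; exact ind_neg fun h => hi h.1.symm
  · simp

variable {V : Type} [Fintype V]

/-- cardinality -/
noncomputable def K (p : V → Prop) : ℝ := ∑ v, ind (p v)
/-- weight of pairs -/
noncomputable def S (w : V → V → ℝ) (P : V → V → Prop) : ℝ := ∑ u, ∑ v, w u v * ind (P u v)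
/-- boundary -/
noncomputable def bd (w : V → V → ℝ) (p : V → Prop) : ℝ := S w fun u v => p u ∧ ¬ p v

lemma K_nonneg (p : V → Prop) : 0 ≤ K p := sum_nonneg fun _ _ => ind_nonneg _
lemma K_congr {p q : V → Prop} (h : ∀ v, p v ↔ q v) : K p = K q :=
  sum_congr rfl fun v _ => ind_congr (h v)
lemma K_le {p q : V → Prop} (h : ∀ v, p v → q v) : K p ≤ K q :=
  sum_le_sum fun v _ => ind_le (h v)
lemma K_le2 {p q r : V → Prop} (h : ∀ v, p v → q v ∨ r v) : K p ≤ K q + K r := by
  unfold K; rw [← sum_add_distrib]; exact sum_le_sum fun v _ => ind_le2 (h v)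
lemma K_split (p q : V → Prop) : K p = K (fun v => p v ∧ q v) + K (fun v => p v ∧ ¬ q v) := by
  unfold K; rw [← sum_add_distrib]; exact sum_congr rfl fun v _ => ind_split _ _
lemma K_true : K (fun _ : V => True) = Fintype.card V := by simp [K, ind]
lemma K_false {p : V → Prop} (h : ∀ v, ¬ p v) : K p = 0 := sum_eq_zero fun v _ => ind_neg (h v)
lemma K_pos {p : V → Prop} {v : V} (h : p v) : 0 < K p :=
  sum_pos' (fun _ _ => ind_nonneg _) ⟨v, mem_univ _, by rw [ind_pos h]; norm_num⟩
lemma exists_of_K_pos {p : V → Prop} (h : 0 < K p) : ∃ v, p v := by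
  by_contra hn; push Not at hn; exact h.ne' (K_false hn)
lemma K_sum {ι : Type*} [Fintype ι] (c : V → ι) (p : ι → V → Prop) :
    ∑ i, K (fun v => c v = i ∧ p i v) = K (fun v => p (c v) v) := by
  unfold K; rw [sum_comm]; exact sum_congr rfl fun v _ => sum_ind_eq (c v) (fun i => p i v)
lemma K_sum' {ι : Type*} [Fintype ι] (c : V → ι) :
    ∑ i, K (fun v => c v = i) = Fintype.card V := by
  rw [← K_true, ← K_sum c (fun _ _ => True)]; simp
lemma K_equiv (e : V ≃ V) (p : V → Prop) : K (fun v => p (e v)) = K p :=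
  Equiv.sum_comp e (fun v => ind (p v))

section
variable {w : V → V → ℝ}
lemma S_congr {P Q : V → V → Prop} (h : ∀ u v, P u v ↔ Q u v) : S w P = S w Q :=
  sum_congr rfl fun u _ => sum_congr rfl fun v _ => by rw [ind_congr (h u v)]
lemma S_sum {ι : Type*} [Fintype ι] (c : V → ι) (P : ι → V → V → Prop) :
    ∑ i, S w (fun u v => c u = i ∧ P i u v) = S w (fun u v => P (c u) u v) := by
  unfold S; rw [sum_comm]; refine sum_congr rfl fun u _ => ?_
  rw [sum_comm]; refine sum_congr rfl fun v _ => ?_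
  rw [← mul_sum, sum_ind_eq (c u) (fun i => P i u v)]
lemma S_split (P Q : V → V → Prop) :
    S w P = S w (fun u v => P u v ∧ Q u v) + S w (fun u v => P u v ∧ ¬ Q u v) := by
  unfold S; rw [← sum_add_distrib]; refine sum_congr rfl fun u _ => ?_
  rw [← sum_add_distrib]; refine sum_congr rfl fun v _ => ?_
  rw [← mul_add, ← ind_split]
lemma S_swap (hs : ∀ u v, w u v = w v u) (P : V → V → Prop) :
    S w P = S w (fun u v => P v u) := by
  unfold S; rw [sum_comm]; simp only [hs]
lemma S_equiv (e : V ≃ V) (he : ∀ u v, w (e u) (e v) = w u v) (P : V → V → Prop) :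
    S w (fun u v => P (e u) (e v)) = S w P := by
  unfold S
  rw [← Equiv.sum_comp e (fun u => ∑ v, w u v * ind (P u v))]
  refine sum_congr rfl fun u _ => ?_
  rw [← Equiv.sum_comp e (fun v => w (e u) v * ind (P (e u) v))]
  simp only [he]
variable (h0 : ∀ u v, 0 ≤ w u v)
include h0
lemma S_nonneg (P : V → V → Prop) : 0 ≤ S w P :=
  sum_nonneg fun u _ => sum_nonneg fun v _ => mul_nonneg (h0 u v) (ind_nonneg _)
lemma S_le {P Q : V → V → Prop} (h : ∀ u v, P u v → Q u v) : S w P ≤ S w Q :=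
  sum_le_sum fun u _ => sum_le_sum fun v _ => mul_le_mul_of_nonneg_left (ind_le (h u v)) (h0 u v)
lemma S_le2 {P Q R : V → V → Prop} (h : ∀ u v, P u v → Q u v ∨ R u v) :
    S w P ≤ S w Q + S w R := by
  unfold S; rw [← sum_add_distrib]; refine sum_le_sum fun u _ => ?_
  rw [← sum_add_distrib]; refine sum_le_sum fun v _ => ?_
  rw [← mul_add]; exact mul_le_mul_of_nonneg_left (ind_le2 (h u v)) (h0 u v)
lemma S_add_le {P Q R : V → V → Prop} (h1 : ∀ u v, P u v → R u v) (h2 : ∀ u v, Q u v → R u v)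
    (h3 : ∀ u v, ¬ (P u v ∧ Q u v)) : S w P + S w Q ≤ S w R := by
  unfold S; rw [← sum_add_distrib]; refine sum_le_sum fun u _ => ?_
  rw [← sum_add_distrib]; refine sum_le_sum fun v _ => ?_
  rw [← mul_add]; exact mul_le_mul_of_nonneg_left (ind_add_le (h1 u v) (h2 u v) (h3 u v)) (h0 u v)
end

lemma cut_eq {w : V → V → ℝ} {ι : Type*} [Fintype ι] (c : V → ι) :
    ∑ i, bd w (fun v => c v = i) = S w (fun u v => c v ≠ c u) :=
  S_sum c (fun i _ v => ¬ c v = i)

lemma avg {Γ : Type} [Group Γ] [Fintype Γ] [MulAction Γ V] [MulAction.IsPretransitive Γ V]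
    (φ : V → ℝ) (v : V) :
    (Fintype.card V : ℝ) * ∑ g : Γ, φ (g • v) = Fintype.card Γ * ∑ u, φ u := by
  have h1 : ∀ u, ∑ g : Γ, φ (g • u) = ∑ g : Γ, φ (g • v) := by
    intro u
    obtain ⟨k, rfl⟩ := MulAction.exists_smul_eq Γ v u
    rw [← Equiv.sum_comp (Equiv.mulRight k) (fun g => φ (g • v))]
    simp [mul_smul]
  calc (Fintype.card V : ℝ) * ∑ g : Γ, φ (g • v) = ∑ u : V, ∑ g : Γ, φ (g • u) := by
        simp [h1]
    _ = ∑ g : Γ, ∑ u, φ u := by
        rw [sum_comm]
        exact sum_congr rfl fun g _ => Equiv.sum_comp (MulAction.toPerm g) φ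
    _ = _ := by simp

/-- the standing hypotheses -/
structure Hyp (Γ : Type) [Group Γ] [MulAction Γ V] (w : V → V → ℝ) (n : ℕ) (h H : ℝ)
    (a : V → Fin n) : Prop where
  w0 : ∀ u v, 0 ≤ w u v
  ws : ∀ u v, w u v = w v u
  wi : ∀ (g : Γ) u v, w (g • u) (g • v) = w u v
  n2 : 2 ≤ n
  h0 : 0 ≤ h
  gap : 2 * (n + 1) * h < H
  apos : ∀ i, 0 < K (fun v => a v = i)
  abd : ∀ i, bd w (fun v => a v = i) ≤ h * K (fun v => a v = i)
  split : ∀ (c : V → Fin n) (B : V → Prop), 0 < K B → (∀ i, 0 < K (fun v => c v = i ∧ ¬ B v)) →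
    H * K B ≤ bd w B ∨ ∃ i, H * K (fun v => c v = i ∧ ¬ B v) ≤ bd w (fun v => c v = i ∧ ¬ B v)

variable {Γ : Type} [Group Γ] [MulAction Γ V] {w : V → V → ℝ} {n : ℕ} {h H : ℝ} {a : V → Fin n}

namespace Hyp
variable (X : Hyp Γ w n h H a)
include X

lemma six : 6 * h < H := by
  have h2 : (2 : ℝ) ≤ n := by exact_mod_cast X.n2
  have := X.gap; have := X.h0; nlinarith
lemma Hpos : 0 < H := by have := X.six; have := X.h0; linarith
omit X in
lemma Ksmul (g : Γ) (p : V → Prop) : K (fun v => p (g • v)) = K p :=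
  K_equiv (MulAction.toPerm g) p
lemma Ssmul (g : Γ) (P : V → V → Prop) : S w (fun u v => P (g • u) (g • v)) = S w P :=
  S_equiv (MulAction.toPerm g) (X.wi g) P
lemma bdsmul (g : Γ) (p : V → Prop) : bd w (fun v => p (g • v)) = bd w p :=
  X.Ssmul g (fun u v => p u ∧ ¬ p v)
lemma cut_le : S w (fun u v => a v ≠ a u) ≤ h * Fintype.card V := by
  rw [← cut_eq, ← K_sum' a, mul_sum]; exact sum_le_sum fun i _ => X.abd i

/-- splitting one part of a partition all of whose parts have small boundary -/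
lemma split1 (c : V → Fin n) {k : ℝ} (hk : k < H) (hc : ∀ i, 0 < K (fun v => c v = i))
    (hb : ∀ i, bd w (fun v => c v = i) ≤ k * K (fun v => c v = i)) (i : Fin n) (q : V → Prop) :
    H * K (fun v => c v = i ∧ q v) ≤ bd w (fun v => c v = i ∧ q v) ∨
    H * K (fun v => c v = i ∧ ¬ q v) ≤ bd w (fun v => c v = i ∧ ¬ q v) := by
  rcases (K_nonneg (fun v => c v = i ∧ q v)).eq_or_lt with h1 | h1
  · left; rw [← h1, mul_zero]; exact S_nonneg X.w0 _
  rcases (K_nonneg (fun v => c v = i ∧ ¬ q v)).eq_or_lt with h2 | h2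
  · right; rw [← h2, mul_zero]; exact S_nonneg X.w0 _
  have e1 : (fun v => c v = i ∧ ¬ (c v = i ∧ q v)) = fun v => c v = i ∧ ¬ q v := by
    funext v; apply propext; tauto
  have e2 : ∀ j, j ≠ i → (fun v => c v = j ∧ ¬ (c v = i ∧ q v)) = fun v => c v = j := by
    intro j hj; funext v; apply propext
    exact ⟨fun h => h.1, fun h => ⟨h, fun h' => hj (h.symm.trans h'.1)⟩⟩
  rcases X.split c (fun v => c v = i ∧ q v) h1 (fun j => by
    by_cases hj : j = i
    · rw [hj, e1]; exact h2
    · rw [e2 j hj]; exact hc j) with h3 | ⟨j, h3⟩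
  · exact Or.inl h3
  · by_cases hj : j = i
    · rw [hj, e1] at h3; exact Or.inr h3
    · rw [e2 j hj] at h3
      have := hb j; have := hc j; nlinarith

lemma size [Fintype Γ] [MulAction.IsPretransitive Γ V] (j : Fin n) :
    (H - h) * Fintype.card V ≤ n * K (fun v => a v = j) * (h + H) := by
  by_contra hlt
  rw [not_le] at hlt
  have hH := X.Hpos
  have hh := X.six
  have hh0 := X.h0
  let φ : V → ℝ := fun u => (∑ v, w u v * ind (a u ≠ j ∧ a v = j)) + H * ind (a u = j)
  have hφ0 : ∀ u, 0 ≤ φ u := fun u => add_nonneg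
    (sum_nonneg fun v _ => mul_nonneg (X.w0 u v) (ind_nonneg _)) (mul_nonneg hH.le (ind_nonneg _))
  have hφ : ∑ u, φ u ≤ (h + H) * K (fun v => a v = j) := by
    simp only [φ, sum_add_distrib, ← mul_sum]
    have h1 : ∑ u, ∑ v, w u v * ind (a u ≠ j ∧ a v = j) = bd w (fun v => a v = j) := by
      rw [bd, S_swap X.ws]; exact S_congr (w := w) fun u v => and_comm
    rw [h1]; have := X.abd j; unfold K at this ⊢; linarith
  let T : Γ → Fin n → ℝ := fun g i => (∑ v, ind (a v = i) * φ (g • v)) / K (fun v => a v = i)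
  have hN : (0 : ℝ) < Fintype.card V := by
    obtain ⟨v, -⟩ := exists_of_K_pos (X.apos j)
    exact_mod_cast Fintype.card_pos_iff.2 ⟨v⟩
  have hG : (0 : ℝ) < Fintype.card Γ := by exact_mod_cast Fintype.card_pos
  have hT : ∀ i, (Fintype.card V : ℝ) * ∑ g, T g i = Fintype.card Γ * ∑ u, φ u := by
    intro i
    simp only [T]
    rw [← sum_div, sum_comm, ← mul_div_assoc, mul_sum, div_eq_iff (X.apos i).ne', K, mul_sum]
    refine sum_congr rfl fun v _ => ?_
    rw [← mul_sum, mul_left_comm, avg, mul_comm]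
  have hex : ∃ g : Γ, ∑ i, T g i < H - h := by
    by_contra hn
    push Not at hn
    have h1 : (Fintype.card Γ : ℝ) * (H - h) ≤ ∑ g, ∑ i, T g i := by
      have := sum_le_sum (s := univ) fun g _ => hn g
      rwa [sum_const, card_univ, nsmul_eq_mul] at this
    have h2 : (Fintype.card V : ℝ) * ∑ g, ∑ i, T g i = n * (Fintype.card Γ * ∑ u, φ u) := by
      rw [sum_comm, mul_sum]; simp [hT]
    have h3 := mul_le_mul_of_nonneg_left h1 hN.le
    have h4 : (n : ℝ) * (Fintype.card Γ * ∑ u, φ u) ≤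
        n * (Fintype.card Γ * ((h + H) * K (fun v => a v = j))) := by gcongr
    nlinarith
  obtain ⟨g, hg⟩ := hex
  have hTi : ∀ i, S w (fun u v => (a u = i ∧ a (g • u) ≠ j) ∧ a (g • v) = j) +
      H * K (fun v => a v = i ∧ a (g • v) = j) < (H - h) * K (fun v => a v = i) := by
    intro i
    have h1 : T g i < H - h := lt_of_le_of_lt (single_le_sum (f := T g) (fun i _ => div_nonneg
      (sum_nonneg fun v _ => mul_nonneg (ind_nonneg _) (hφ0 _)) (K_nonneg _)) (mem_univ i)) hg
    simp only [T] at h1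
    rw [div_lt_iff₀ (X.apos i)] at h1
    refine lt_of_le_of_lt (le_of_eq ?_) h1
    simp only [φ, mul_add, sum_add_distrib, K, S, mul_sum]
    congr 1
    · refine sum_congr rfl fun u _ => ?_
      rw [← Equiv.sum_comp (MulAction.toPerm g)
        (fun v => ind (a u = i) * (w (g • u) v * ind (a (g • u) ≠ j ∧ a v = j)))]
      refine sum_congr rfl fun v _ => ?_
      simp only [MulAction.toPerm_apply, X.wi, ind_and]; ring
    · refine sum_congr rfl fun u _ => ?_
      rw [ind_and]; ring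
  have hS := fun i => S_nonneg X.w0 (fun u v => (a u = i ∧ a (g • u) ≠ j) ∧ a (g • v) = j)
  have hC : K (fun v => a (g • v) = j) = K (fun v => a v = j) := Ksmul g (fun v => a v = j)
  rcases X.split a (fun v => a (g • v) = j) (by rw [hC]; exact X.apos j) (fun i => by
    have h1 := K_split (fun v => a v = i) (fun v => a (g • v) = j)
    have h2 := hTi i
    have h3 := hS i
    have h4 := X.apos i
    by_contra hn
    have h5 : K (fun v => a v = i ∧ ¬ a (g • v) = j) = 0 := le_antisymm (not_lt.1 hn) (K_nonneg _)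
    rw [h5, add_zero] at h1
    rw [← h1] at h2
    nlinarith) with h1 | ⟨i, h1⟩
  · rw [hC, X.bdsmul g (fun v => a v = j)] at h1
    have := X.abd j; have := X.apos j; nlinarith
  · have h2 := K_split (fun v => a v = i) (fun v => a (g • v) = j)
    have h3 : bd w (fun v => a v = i ∧ ¬ a (g • v) = j) ≤ bd w (fun v => a v = i) +
        S w (fun u v => (a u = i ∧ a (g • u) ≠ j) ∧ a (g • v) = j) :=
      S_le2 X.w0 fun u v huv => by tauto
    have h4 := X.abd i
    have h5 := hTi i
    nlinarith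

end Hyp
end Pool.Agent.H.Mim
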