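import Mathlib
import Pool.Agent.H.MP_8474a0_co.A

namespace Pool.Agent.H.Mim
open Finset
open Classical

variable {V : Type} [Fintype V] {Γ : Type} [Group Γ] [MulAction Γ V] {w : V → V → ℝ} {n : ℕ}
  {h H : ℝ} {a : V → Fin n}

/-- `g` moves most of part `i` into part `j` -/
def Mt (h H : ℝ) (a : V → Fin n) (g : Γ) (i j : Fin n) : Prop :=
  h * (K (fun v => a v = i) + K (fun v => a v = j)) < H * K (fun v => a v = i ∧ a (g • v) = j)

lemma Mt.symm {g : Γ} {i j : Fin n} (m : Mt h H a g i j) : Mt h H a g⁻¹ j i := by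
  unfold Mt at *
  rw [← Hyp.Ksmul g (fun v => a v = j ∧ a (g⁻¹ • v) = i), add_comm]
  simpa [and_comm] using m

namespace Hyp
variable (X : Hyp Γ w n h H a)
include X

lemma bd_inter (g : Γ) (i j : Fin n) : bd w (fun v => a v = i ∧ a (g • v) = j) ≤
    h * (K (fun v => a v = i) + K (fun v => a v = j)) := by
  have h1 : bd w (fun v => a v = i ∧ a (g • v) = j) ≤ bd w (fun v => a v = i) +
      bd w (fun v => a (g • v) = j) := S_le2 X.w0 fun u v huv => by tauto
  rw [X.bdsmul g (fun v => a v = j)] at h1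
  have := X.abd i; have := X.abd j; linarith

lemma bd_diff (g : Γ) (i j : Fin n) : bd w (fun v => a v = i ∧ ¬ a (g • v) = j) ≤
    h * (K (fun v => a v = i) + K (fun v => a v = j)) := by
  have h1 : bd w (fun v => a v = i ∧ ¬ a (g • v) = j) ≤ bd w (fun v => a v = i) +
      S w (fun u v => a (g • v) = j ∧ ¬ a (g • u) = j) := S_le2 X.w0 fun u v huv => by tauto
  rw [← S_swap X.ws (fun u v => a (g • u) = j ∧ ¬ a (g • v) = j)] at h1
  have h2 := X.bdsmul g (fun v => a v = j)
  unfold bd at h2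
  rw [h2] at h1
  have := X.abd i; have := X.abd j; unfold bd at *; linarith

lemma Mt_bd {g : Γ} {i j : Fin n} (m : Mt h H a g i j) :
    H * K (fun v => a v = i ∧ ¬ a (g • v) = j) ≤ bd w (fun v => a v = i ∧ ¬ a (g • v) = j) := by
  rcases X.split1 a (by have := X.six; have := X.h0; linarith) X.apos X.abd i
    (fun v => a (g • v) = j) with h1 | h1
  · exact absurd (h1.trans (X.bd_inter g i j)) (not_le.2 m)
  · exact h1

lemma Mt_left {g : Γ} {i j : Fin n} (m : Mt h H a g i j) :
    H * K (fun v => a v = i ∧ ¬ a (g • v) = j) ≤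
      h * (K (fun v => a v = i) + K (fun v => a v = j)) := (X.Mt_bd m).trans (X.bd_diff g i j)

lemma Mt_right {g : Γ} {i j : Fin n} (m : Mt h H a g i j) :
    H * K (fun v => a (g • v) = j ∧ ¬ a v = i) ≤
      h * (K (fun v => a v = i) + K (fun v => a v = j)) := by
  have := X.Mt_left m.symm
  rw [← Ksmul g (fun v => a v = j ∧ ¬ a (g⁻¹ • v) = i), add_comm] at this
  simpa using this

lemma Mt_comp {g g' : Γ} {i j k : Fin n} (m : Mt h H a g i j) (m' : Mt h H a g' j k) :
    Mt h H a (g' * g) i k := by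
  have l1 := X.Mt_left m
  have r1 := X.Mt_right m
  have l2 := X.Mt_left m'
  have r2 := X.Mt_right m'
  rw [← Ksmul g (fun v => a v = j ∧ ¬ a (g' • v) = k)] at l2
  rw [← Ksmul g (fun v => a (g' • v) = k ∧ ¬ a v = j)] at r2
  unfold Mt
  simp only [mul_smul]
  set P := K (fun v => a v = i ∧ a (g' • g • v) = k)
  have h1 : K (fun v => a v = i) ≤ P + (K (fun v => a v = i ∧ ¬ a (g • v) = j) +
      K (fun v => a (g • v) = j ∧ ¬ a (g' • g • v) = k)) :=
    (K_le2 (r := fun v => (a v = i ∧ ¬ a (g • v) = j) ∨ (a (g • v) = j ∧ ¬ a (g' • g • v) = k))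
      fun v hv => by tauto).trans (add_le_add le_rfl (K_le2 fun v hv => hv))
  have h2 : K (fun v => a (g • v) = j) ≤ P + (K (fun v => a (g • v) = j ∧ ¬ a v = i) +
      K (fun v => a (g • v) = j ∧ ¬ a (g' • g • v) = k)) :=
    (K_le2 (r := fun v => (a (g • v) = j ∧ ¬ a v = i) ∨ (a (g • v) = j ∧ ¬ a (g' • g • v) = k))
      fun v hv => by tauto).trans (add_le_add le_rfl (K_le2 fun v hv => hv))
  have h3 : K (fun v => a (g' • g • v) = k) ≤ P + (K (fun v => a (g • v) = j ∧ ¬ a v = i) +
      K (fun v => a (g' • g • v) = k ∧ ¬ a (g • v) = j)) :=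
    (K_le2 (r := fun v => (a (g • v) = j ∧ ¬ a v = i) ∨ (a (g' • g • v) = k ∧ ¬ a (g • v) = j))
      fun v hv => by tauto).trans (add_le_add le_rfl (K_le2 fun v hv => hv))
  rw [Ksmul g (fun v => a v = j)] at h2
  rw [Ksmul g (fun v => a (g' • v) = k), Ksmul g' (fun v => a v = k)] at h3
  have hH := X.Hpos
  have h6 := X.six
  have := X.apos i; have := X.apos j; have := X.apos k
  have e1 := mul_le_mul_of_nonneg_left h1 hH.le
  have e2 := mul_le_mul_of_nonneg_left h2 hH.le
  have e3 := mul_le_mul_of_nonneg_left h3 hH.le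
  nlinarith

lemma Mt_unique {g : Γ} {i j j' : Fin n} (m : Mt h H a g i j) (m' : Mt h H a g i j') : j = j' := by
  have := X.Mt_comp m.symm m'
  unfold Mt at this
  rw [mul_inv_cancel] at this
  by_contra hne
  rw [K_false (p := fun v => a v = j ∧ a ((1 : Γ) • v) = j')
    (fun v hv => hne (hv.1.symm.trans (by simpa using hv.2)))] at this
  have := X.apos j; have := X.apos j'; have := X.h0
  nlinarith

variable [Fintype Γ] [MulAction.IsPretransitive Γ V]

lemma Mt_exists (g : Γ) (i : Fin n) : ∃ j, Mt h H a g i j := by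
  by_contra hn
  push Not at hn
  simp only [Mt, not_lt] at hn
  have h1 := sum_le_sum (s := univ) fun j _ => hn j
  rw [← mul_sum, ← mul_sum, sum_add_distrib, K_sum', sum_const, card_univ, Fintype.card_fin,
    nsmul_eq_mul] at h1
  have h2 : ∑ j, K (fun v => a v = i ∧ a (g • v) = j) = K (fun v => a v = i) := by
    rw [← K_sum (fun v => a (g • v)) (fun _ v => a v = i)]
    exact sum_congr rfl fun j _ => K_congr fun v => and_comm
  rw [h2] at h1
  have h3 := X.size i
  have h4 := X.apos i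
  have h5 := X.gap
  have h6 := X.h0
  have hn2 : (2 : ℝ) ≤ n := by exact_mod_cast X.n2
  set x := K (fun v => a v = i)
  set N : ℝ := ((Fintype.card V : ℕ) : ℝ)
  -- (H - n h) x ≤ h N, (H - h) N ≤ n x (h + H)
  have h7 : (H - h) * ((H - n * h) * x) ≤ h * (n * x * (h + H)) := by
    calc (H - h) * ((H - n * h) * x) ≤ (H - h) * (h * N) :=
          mul_le_mul_of_nonneg_left (by linarith) (by nlinarith)
      _ = h * ((H - h) * N) := by ring
      _ ≤ _ := mul_le_mul_of_nonneg_left h3 h6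
  have h8 : (H - h) * (H - n * h) ≤ h * n * (h + H) := by
    by_contra hc
    rw [not_le] at hc
    nlinarith
  have hH := X.Hpos
  nlinarith

theorem system : ∃ (b : V → Fin n) (σ : Γ → Fin n → Fin n), Function.Surjective b ∧
    (∀ g, Function.Injective (σ g)) ∧ (∀ g v, b (g • v) = σ g (b v)) ∧
    2 * H * K (fun v => a v ≠ b v) ≤ 3 * h * Fintype.card V := by
  choose σ hσ using X.Mt_exists
  have hmul : ∀ g g' i, σ (g' * g) i = σ g' (σ g i) := fun g g' i =>
    X.Mt_unique (hσ _ _) (X.Mt_comp (hσ g i) (hσ g' _))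
  have hinj : ∀ g, Function.Injective (σ g) := fun g i i' e =>
    X.Mt_unique (hσ g i).symm (e ▸ (hσ g i').symm)
  have hH := X.Hpos
  have h6 := X.six
  have hh := X.h0
  set N : ℝ := ((Fintype.card V : ℕ) : ℝ) with hN
  set M : ℝ := ((Fintype.card Γ : ℕ) : ℝ) with hM
  have hMpos : 0 < M := by rw [hM]; exact_mod_cast Fintype.card_pos
  obtain ⟨v1, -⟩ := exists_of_K_pos (X.apos ⟨0, by have := X.n2; omega⟩)
  have hNpos : 0 < N := by rw [hN]; exact_mod_cast Fintype.card_pos_iff.2 ⟨v1⟩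
  -- misplaced vertices for one g
  have hmis : ∀ g : Γ, 2 * H * K (fun v => ¬ a (g • v) = σ g (a v)) ≤ 3 * h * N := by
    intro g
    have h1 := sum_le_sum (s := univ) fun i _ => X.Mt_bd (hσ g i)
    rw [← mul_sum, K_sum a (fun i v => ¬ a (g • v) = σ g i)] at h1
    have h2 : ∑ i, bd w (fun v => a v = i ∧ ¬ a (g • v) = σ g i) =
        S w (fun u v => ¬ a (g • u) = σ g (a u) ∧ ¬ (a v = a u ∧ ¬ a (g • v) = σ g (a u))) := by
      rw [← S_sum a (fun i u v => ¬ a (g • u) = σ g i ∧ ¬ (a v = i ∧ ¬ a (g • v) = σ g i))]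
      exact sum_congr rfl fun i _ => S_congr fun u v => and_assoc
    let Q : V → V → Prop := fun u v => a v = a u ∧ ¬ a (g • u) = σ g (a u) ∧ a (g • v) = σ g (a v)
    have h3 : S w (fun u v => ¬ a (g • u) = σ g (a u) ∧ ¬ (a v = a u ∧ ¬ a (g • v) = σ g (a u))) ≤
        S w (fun u v => a v ≠ a u) + S w Q := S_le2 X.w0 fun u v huv => by
      by_cases e : a v = a u
      · right; refine ⟨e, huv.1, ?_⟩; rw [e]; tauto
      · left; exact e
    have h4 : S w Q + S w (fun u v => Q v u) ≤ S w (fun u v => a (g • v) ≠ a (g • u)) :=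
      S_add_le X.w0 (fun u v q e => q.2.1 (by rw [← e, q.2.2, q.1]))
        (fun u v q e => q.2.1 (by rw [e, q.2.2, q.1])) (fun u v q => q.1.2.1 q.2.2.2)
    rw [← S_swap X.ws Q, X.Ssmul g (fun u v => a v ≠ a u)] at h4
    have h5 := X.cut_le
    linarith
  let f : Fin n → V → ℝ := fun i v => K (fun g : Γ => a (g • v) = σ g i)
  have hf : ∀ k i v, f (σ k i) (k • v) = f i v := by
    intro k i v
    simp only [f]
    rw [← K_equiv (Equiv.mulRight k) (fun g : Γ => a (g • v) = σ g i)]
    simp [mul_smul, hmul]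
  have hf2 : ∀ i j v, i ≠ j → f i v + f j v ≤ M := by
    intro i j v hij
    simp only [f, K]
    rw [← sum_add_distrib, hM, ← K_true]
    exact sum_le_sum fun g _ => ind_add_le (fun _ => trivial) (fun _ => trivial)
      fun e => hij (hinj g (e.1.symm.trans e.2))
  have hfM : ∀ i v, f i v ≤ M := fun i v => by rw [hM, ← K_true]; exact K_le fun _ _ => trivial
  have hsum : M * (2 * H * N - 3 * h * N) ≤ 2 * H * ∑ v, f (a v) v := by
    have e : ∑ v, f (a v) v = ∑ g : Γ, K (fun v => a (g • v) = σ g (a v)) := by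
      simp only [f, K]; exact sum_comm
    rw [e, mul_sum, hM, ← nsmul_eq_mul, ← card_univ, ← sum_const]
    refine sum_le_sum fun g _ => ?_
    have h1 := K_split (fun _ : V => True) (fun v => a (g • v) = σ g (a v))
    rw [K_true] at h1
    simp only [true_and] at h1
    have := hmis g
    nlinarith
  obtain ⟨v0, -, hv0⟩ := exists_max_image univ (fun v => f (a v) v) ⟨v1, mem_univ _⟩
  set F := f (a v0) v0 with hF
  have hFl : M * (2 * H - 3 * h) ≤ 2 * H * F := by
    have h1 : ∑ v, f (a v) v ≤ N * F := by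
      have := sum_le_sum (s := univ) hv0
      rwa [sum_const, card_univ, nsmul_eq_mul] at this
    have h2 : N * (M * (2 * H - 3 * h)) ≤ N * (2 * H * F) := by nlinarith
    exact le_of_mul_le_mul_left h2 hNpos
  have hF2 : M < 2 * F := by
    by_contra hc
    rw [not_lt] at hc
    nlinarith
  have hb : ∀ v, ∃ i, f i v = F := fun v => by
    obtain ⟨k, rfl⟩ := MulAction.exists_smul_eq Γ v0 v
    exact ⟨_, hf k _ _⟩
  choose b hb using hb
  have hbu : ∀ v i, f i v = F → i = b v := fun v i e => by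
    by_contra hne
    have := hf2 i (b v) v hne
    rw [e, hb] at this; linarith
  have hm : 2 * H * K (fun v => a v ≠ b v) ≤ 3 * h * N := by
    set m := K (fun v => a v ≠ b v) with hm
    have h1 : ∑ v, f (a v) v ≤ N * F - m * (2 * F - M) := by
      rw [hN, ← K_true, hm, K, K, sum_mul, sum_mul, ← sum_sub_distrib]
      refine sum_le_sum fun v _ => ?_
      rw [ind_pos trivial]
      by_cases e : a v = b v
      · rw [ind_neg (not_not.2 e), e, hb]; linarith
      · have := hf2 _ _ v e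
        rw [hb] at this
        rw [ind_pos e]; linarith
    have h2 := hfM (a v0) v0
    by_contra hc
    rw [not_le] at hc
    have h3 : 3 * h * N * (2 * F - M) < 2 * H * m * (2 * F - M) :=
      mul_lt_mul_of_pos_right hc (by linarith)
    have h4 : M * (2 * H * N - 3 * h * N) ≤ 2 * H * (N * F - m * (2 * F - M)) :=
      hsum.trans (mul_le_mul_of_nonneg_left h1 (by linarith))
    have h5 : 0 ≤ N * (M - F) * (2 * H - 6 * h) :=
      mul_nonneg (mul_nonneg hNpos.le (by linarith)) (by linarith)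
    nlinarith
  refine ⟨b, σ, fun i => ?_, hinj, fun g v => (hbu _ _ (by rw [hf, hb])).symm, hm⟩
  by_contra hn
  push Not at hn
  have h1 : K (fun v => a v = i) ≤ K (fun v => a v ≠ b v) := K_le fun v e e' => hn v (e' ▸ e)
  have h2 := X.size i
  have h3 := X.gap
  have hn2 : (2 : ℝ) ≤ n := by exact_mod_cast X.n2
  have h4 : 2 * H * ((H - h) * N) ≤ n * (h + H) * (3 * h * N) := by
    calc 2 * H * ((H - h) * N) ≤ 2 * H * (n * K (fun v => a v = i) * (h + H)) :=
          mul_le_mul_of_nonneg_left h2 (by linarith)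
      _ = n * (h + H) * (2 * H * K (fun v => a v = i)) := by ring
      _ ≤ _ := mul_le_mul_of_nonneg_left (le_trans (by nlinarith) hm) (by positivity)
  have h5 : 2 * H * (H - h) ≤ n * (h + H) * (3 * h) := by
    by_contra hc
    rw [not_le] at hc
    nlinarith
  nlinarith

theorem main : ∃ b : V → Fin n, Function.Surjective b ∧
    (∀ g : Γ, ∃ σ : Fin n → Fin n, Function.Injective σ ∧ ∀ v, b (g • v) = σ (b v)) ∧
    ∀ i, bd w (fun v => b v = i) ≤ h * K (fun v => b v = i) := by
  obtain ⟨b, σ, hb, hinj, hbσ, hm⟩ := X.system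
  refine ⟨b, hb, fun g => ⟨σ g, hinj g, hbσ g⟩, ?_⟩
  have hH := X.Hpos
  have h6 := X.six
  have hh := X.h0
  have hgap := X.gap
  have hn2 : (2 : ℝ) ≤ n := by exact_mod_cast X.n2
  set N : ℝ := ((Fintype.card V : ℕ) : ℝ) with hN
  obtain ⟨v0, -⟩ := hb ⟨0, by have := X.n2; omega⟩
  have hNpos : 0 < N := by rw [hN]; exact_mod_cast Fintype.card_pos_iff.2 ⟨v0⟩
  set k : ℝ := ∑ v, w v0 v * ind (b v ≠ b v0) with hk
  have hk0 : 0 ≤ k := sum_nonneg fun v _ => mul_nonneg (X.w0 _ _) (ind_nonneg _)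
  have hku : ∀ u, ∑ v, w u v * ind (b v ≠ b u) = k := by
    intro u
    obtain ⟨g, rfl⟩ := MulAction.exists_smul_eq Γ v0 u
    rw [← Equiv.sum_comp (MulAction.toPerm g) (fun v => w (g • v0) v * ind (b v ≠ b (g • v0)))]
    refine sum_congr rfl fun v _ => ?_
    simp only [MulAction.toPerm_apply, X.wi, hbσ]
    rw [ind_congr (hinj g).ne_iff]
  have hSk : ∀ p : V → Prop, S w (fun u v => p u ∧ b v ≠ b u) = k * K p := by
    intro p
    rw [S, K, mul_sum]
    refine sum_congr rfl fun u _ => ?_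
    rw [← hku u, sum_mul]
    exact sum_congr rfl fun v _ => by rw [ind_and]; ring
  have hbd : ∀ i, bd w (fun v => b v = i) = k * K (fun v => b v = i) := fun i => by
    rw [← hSk]; exact S_congr fun u v => and_congr_right fun e => by rw [e]
  have hpos : ∀ i, 0 < K (fun v => b v = i) := fun i => by
    obtain ⟨v, hv⟩ := hb i; exact K_pos (p := fun v => b v = i) hv
  suffices hkh : k ≤ h from fun i => by rw [hbd]; exact mul_le_mul_of_nonneg_right hkh (hpos i).le
  have hsz : ∀ i, n * K (fun v => b v = i) = N := by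
    intro i
    have : ∀ j, K (fun v => b v = j) = K (fun v => b v = i) := by
      intro j
      obtain ⟨u, rfl⟩ := hb i
      obtain ⟨u', rfl⟩ := hb j
      obtain ⟨g, rfl⟩ := MulAction.exists_smul_eq Γ u u'
      rw [← Ksmul g (fun v => b v = b (g • u))]
      exact K_congr fun v => by rw [hbσ, hbσ, (hinj g).eq_iff]
    rw [hN, ← K_sum' b]; simp [this]
  set m := K (fun v => a v ≠ b v) with hmdef
  have hm0 : 0 ≤ m := K_nonneg _
  let O : V → V → Prop := fun u v => b v ≠ b u ∧ a u = b u ∧ a v = b v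
  have hO : k * N ≤ S w O + 2 * (k * m) := by
    have h1 := hSk (fun _ => True)
    rw [K_true] at h1
    have h2 := hSk (fun v => a v ≠ b v)
    have h3 := S_swap X.ws (fun u v => a u ≠ b u ∧ b v ≠ b u)
    have h4 : S w (fun u v => True ∧ b v ≠ b u) ≤ S w O +
        S w (fun u v => (a u ≠ b u ∧ b v ≠ b u) ∨ (a v ≠ b v ∧ b u ≠ b v)) :=
      S_le2 X.w0 fun u v huv => by
        have := huv.2; have := huv.2.symm; simp only [O]; tauto
    have h5 : S w (fun u v => (a u ≠ b u ∧ b v ≠ b u) ∨ (a v ≠ b v ∧ b u ≠ b v)) ≤ _ :=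
      S_le2 X.w0 fun u v huv => huv
    linarith
  have hcut := X.cut_le
  have hOc : S w O ≤ S w (fun u v => a v ≠ a u) :=
    S_le X.w0 fun u v q e => q.1 (by rw [← q.2.1, ← q.2.2, e])
  have hk2 : k ≤ 2 * h := by
    by_contra hc
    rw [not_le] at hc
    have h1 : 4 * m ≤ N := by
      by_contra h1
      rw [not_le] at h1
      nlinarith
    nlinarith
  -- inner expansion
  have hin : ∀ i, k * K (fun v => b v = i ∧ a v ≠ b v) ≤
      S w (fun u v => b u = i ∧ b v = b u ∧ a u ≠ b u ∧ a v = b v) := by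
    intro i
    set e := S w (fun u v => b u = i ∧ b v = b u ∧ a u ≠ b u ∧ a v = b v) with he
    have he0 : 0 ≤ e := S_nonneg X.w0 _
    have hs := K_split (fun v => b v = i) (fun v => a v ≠ b v)
    have hβ : K (fun v => b v = i ∧ a v ≠ b v) ≤ m := K_le fun v hv => hv.2
    have hβ0 := K_nonneg (fun v => b v = i ∧ a v ≠ b v)
    have hs' := hsz i
    rcases X.split1 b (k := k) (by linarith) hpos (fun i => (hbd i).le) i (fun v => a v ≠ b v)
      with h1 | h1
    · have h2 : bd w (fun v => b v = i ∧ a v ≠ b v) ≤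
          S w (fun u v => (b u = i ∧ a u ≠ b u) ∧ b v ≠ b u) + e :=
        S_le2 X.w0 fun u v huv => by
          by_cases e : b v = b u
          · right; refine ⟨huv.1.1, e, huv.1.2, ?_⟩
            by_contra hc; exact huv.2 ⟨e.trans huv.1.1, hc⟩
          · left; exact ⟨huv.1, e⟩
      rw [hSk] at h2
      nlinarith
    · have h2 : bd w (fun v => b v = i ∧ ¬ a v ≠ b v) ≤
          S w (fun u v => (b u = i ∧ ¬ a u ≠ b u) ∧ b v ≠ b u) +
          S w (fun u v => b v = i ∧ b u = b v ∧ a v ≠ b v ∧ a u = b u) :=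
        S_le2 X.w0 fun u v huv => by
          by_cases e : b v = b u
          · right; refine ⟨e.trans huv.1.1, e.symm, ?_, not_not.1 huv.1.2⟩
            intro hc; exact huv.2 ⟨e.trans huv.1.1, fun h => h hc⟩
          · left; exact ⟨huv.1, e⟩
      rw [hSk, ← S_swap X.ws (fun u v => b u = i ∧ b v = b u ∧ a u ≠ b u ∧ a v = b v)] at h2
      set s := K (fun v => b v = i)
      set β := K (fun v => b v = i ∧ a v ≠ b v)
      have hγ : K (fun v => b v = i ∧ ¬ a v ≠ b v) = s - β := by linarith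
      rw [hγ] at h1 h2
      have hspos := hpos i
      have h3 : 2 * H * β ≤ 3 * h * (n * s) := by rw [hs']; nlinarith
      have h4 : k * s ≤ 2 * h * s := mul_le_mul_of_nonneg_right hk2 hspos.le
      have h5 : 0 ≤ (H - 2 * (n + 1) * h) * s := mul_nonneg (by linarith) hspos.le
      have h7 : 0 ≤ n * h * s := by positivity
      nlinarith
  have hin2 := sum_le_sum (s := univ) fun i _ => hin i
  rw [← mul_sum, K_sum b (fun _ v => a v ≠ b v),
    S_sum b (fun _ u v => b v = b u ∧ a u ≠ b u ∧ a v = b v)] at hin2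
  let I : V → V → Prop := fun u v => b v = b u ∧ a u ≠ b u ∧ a v = b v
  have hI : S w I + S w (fun u v => I v u) ≤ S w (fun u v => a v ≠ a u ∧ b v = b u) :=
    S_add_le X.w0 (fun u v q => ⟨fun e => q.2.1 (by rw [← e, q.2.2, q.1]), q.1⟩)
      (fun u v q => ⟨fun e => q.2.1 (by rw [e, q.2.2, q.1]), q.1.symm⟩)
      (fun u v q => q.1.2.1 q.2.2.2)
  rw [← S_swap X.ws I] at hI
  have hOc' : S w O ≤ S w (fun u v => a v ≠ a u ∧ ¬ b v = b u) :=
    S_le X.w0 fun u v q => ⟨fun e => q.1 (by rw [← q.2.1, ← q.2.2, e]), q.1⟩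
  have hsp := S_split (w := w) (fun u v => a v ≠ a u) (fun u v => b v = b u)
  have : k * N ≤ h * N := by linarith
  exact le_of_mul_le_mul_right this hNpos

end Hyp
end Pool.Agent.H.Mim
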